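import Pool.Agent.helper74.MQ.Spec

/-!
# Project mq: (MP_af9036_an): NG2, no wide strip if the partner relation is symmetric
-/

set_option autoImplicit false

open Complex Metric Set Filter Topology MeasureTheory MPS

noncomputable section

namespace MQ

theorem NG2_dist (ρ e : ℂ) (h : Complex.exp e = ρ) : ‖ρ / ‖ρ‖ - 1‖ ≤ |e.im| := by
  have h1 : ρ / (‖ρ‖ : ℂ) = Complex.exp (Complex.I * (e.im : ℂ)) := by
    have h2 : Complex.exp e = ((Real.exp e.re : ℝ) : ℂ) * Complex.exp (Complex.I * (e.im : ℂ)) := by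
      rw [Complex.ofReal_exp, ← Complex.exp_add]
      congr 1
      apply Complex.ext <;> simp
    have h3 : ‖ρ‖ = Real.exp e.re := by rw [← h, Complex.norm_exp]
    have h4 : ((Real.exp e.re : ℝ) : ℂ) ≠ 0 := by
      exact_mod_cast (Real.exp_pos e.re).ne'
    rw [h3, ← h, h2, mul_div_cancel_left₀ _ h4]
  rw [h1]
  have := Real.norm_exp_I_mul_ofReal_sub_one_le (x := e.im)
  simpa [Real.norm_eq_abs] using this

theorem NG2_red (v : ℝ) : ∃ m : ℤ, 0 ≤ v - m * (2 * Real.pi) ∧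
    v - m * (2 * Real.pi) < 2 * Real.pi := by
  refine ⟨⌊v / (2 * Real.pi)⌋, ?_, ?_⟩
  · have := (le_div_iff₀ Real.two_pi_pos).1 (Int.floor_le (v / (2 * Real.pi)))
    linarith
  · have := (div_lt_iff₀ Real.two_pi_pos).1 (Int.lt_floor_add_one (v / (2 * Real.pi)))
    linarith

theorem NG2_im (a b : ℂ) (h : Complex.exp a = Complex.exp b) :
    ∃ m : ℤ, a.im = b.im + m * (2 * Real.pi) := by
  obtain ⟨m, hm⟩ := Complex.exp_eq_exp_iff_exists_int.1 h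
  refine ⟨m, ?_⟩
  have : (m : ℂ) * (2 * Real.pi * I) = ((m * (2 * Real.pi) : ℝ) : ℂ) * I := by
    push_cast; ring
  rw [hm, this]
  simp

section
variable {k : ℕ} [NeZero k]

theorem NG2_circ (hSYM : SYM_stmt) (hPLA : PLA_stmt) (b g : ZMod k → ℂ) (ψ : ZMod k → ℂ → ℂ)
    (hF : Fam b g ψ) (i l : ZMod k) (hil : i ≠ l) (S S₁ S₂ : ℂ) (y y₁ y₂ e : ℝ) (he : 0 < e)
    (hA : Strip b g (ψ i) (ψ l) S (y - e) (y + e))
    (hB : Strip b g (ψ i) (ψ l) S₁ (y₁ - e) (y₁ + e))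
    (hC : Strip b g (ψ i) (ψ l) S₂ (y₂ - e) (y₂ + e))
    (t t' x x' : ℝ) (m₁ m₂ m₃ m₄ : ℤ)
    (h1 : y₁ = y + t + m₁ * (2 * Real.pi)) (h2 : S₁.im - y₁ = (S.im - y) + t' + m₂ * (2 * Real.pi))
    (h3 : y₂ = y + x + m₃ * (2 * Real.pi)) (h4 : S₂.im - y₂ = (S.im - y) + x' + m₄ * (2 * Real.pi))
    (ht : 0 < t) (htx : t < x) (hx : x < 2 * Real.pi)
    (ht' : 0 < t') (htx' : t' < x') (hx' : x' < 2 * Real.pi) : False := by
  have pi1 := (hF.mx i).pn
  have pl1 := (hF.mx l).pn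
  have im1 : ∀ m : ℤ, (2 * Real.pi * I * (m : ℂ)).im = m * (2 * Real.pi) := by
    intro m
    have : (2 * Real.pi * I * (m : ℂ)) = ((m * (2 * Real.pi) : ℝ) : ℂ) * I := by
      push_cast; ring
    rw [this]
    simp
  have hB1 := ((hSYM k b g i l (ψ i) (ψ l) pi1 pl1 S₁ _ _ hB).2.1 (-m₁)).2
  have hB2 := ((hSYM k b g i l (ψ i) (ψ l) pi1 pl1 _ _ _ hB1).2.1 (-m₂)).1
  have hC1 := ((hSYM k b g i l (ψ i) (ψ l) pi1 pl1 S₂ _ _ hC).2.1 (-m₃)).2
  have hC2 := ((hSYM k b g i l (ψ i) (ψ l) pi1 pl1 _ _ _ hC1).2.1 (-m₄)).1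
  have eB1 : y₁ - e + ((-m₁ : ℤ) : ℝ) * (2 * Real.pi) = (y + t) - e := by
    rw [h1]; push_cast; ring
  have eB2 : y₁ + e + ((-m₁ : ℤ) : ℝ) * (2 * Real.pi) = (y + t) + e := by
    rw [h1]; push_cast; ring
  have eC1 : y₂ - e + ((-m₃ : ℤ) : ℝ) * (2 * Real.pi) = (y + x) - e := by
    rw [h3]; push_cast; ring
  have eC2 : y₂ + e + ((-m₃ : ℤ) : ℝ) * (2 * Real.pi) = (y + x) + e := by
    rw [h3]; push_cast; ring
  rw [eB1, eB2] at hB2
  rw [eC1, eC2] at hC2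
  have iB : (S₁ + 2 * Real.pi * I * ((-m₁ : ℤ) : ℂ) + 2 * Real.pi * I * ((-m₂ : ℤ) : ℂ)).im - (y + t)
      = (S.im - y) + t' := by
    rw [Complex.add_im, Complex.add_im, im1, im1]
    have : S₁.im = y₁ + ((S.im - y) + t' + m₂ * (2 * Real.pi)) := by linarith
    rw [this, h1]
    push_cast
    ring
  have iC : (S₂ + 2 * Real.pi * I * ((-m₃ : ℤ) : ℂ) + 2 * Real.pi * I * ((-m₄ : ℤ) : ℂ)).im - (y + x)
      = (S.im - y) + x' := by
    rw [Complex.add_im, Complex.add_im, im1, im1]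
    have : S₂.im = y₂ + ((S.im - y) + x' + m₄ * (2 * Real.pi)) := by linarith
    rw [this, h3]
    push_cast
    ring
  refine hPLA k b g ψ hF i l S _ _ y (y + t) (y + x) e hil he hA hB2 hC2 (by linarith) (by linarith)
    (by linarith) ?_ ?_ ?_
  · rw [iB]; linarith
  · rw [iB, iC]; linarith
  · rw [iC]; linarith

theorem NG2_sep (hSYM : SYM_stmt) (hUNQ : UNQ_stmt) (b g : ZMod k → ℂ) (ψ : ZMod k → ℂ → ℂ)
    (hF : Fam b g ψ) (i l : ZMod k) (S S' : ℂ) (y y' e e' : ℝ) (he' : 0 < e') (m : ℤ)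
    (hA : Strip b g (ψ i) (ψ l) S (y - e) (y + e))
    (hB : Strip b g (ψ i) (ψ l) S' (y' - e') (y' + e'))
    (h : |y' + m * (2 * Real.pi) - y| < e) : Complex.exp (S' - S) = 1 := by
  have pi1 := (hF.mx i).pn
  have pl1 := (hF.mx l).pn
  have hB1 := ((hSYM k b g i l (ψ i) (ψ l) pi1 pl1 S' _ _ hB).2.1 m).2
  have h2 := abs_lt.1 h
  obtain ⟨-, m', hm'⟩ := hUNQ k b g ψ hF i l l S _ (y - e) (y + e) _ _ (y' + m * (2 * Real.pi)) hA hB1
    (by linarith) (by linarith) (by linarith) (by linarith)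
  have : S' - S = ((m' - m : ℤ) : ℂ) * (2 * Real.pi * I) := by
    push_cast
    linear_combination hm'
  rw [this, Complex.exp_int_mul_two_pi_mul_I]

end

theorem NG2 (hLT : LT_stmt) (hCOC : COC_stmt) (hSYM : SYM_stmt) (hUNQ : UNQ_stmt)
    (hPLA : PLA_stmt) : NG2_stmt := by
  intro n d₀ r₀ hn hd₀ hr₀ hr₁
  obtain ⟨η, hη0, hη1, hη2⟩ : ∃ η : ℝ, 0 < η ∧ η ≤ r₀ / 2000 ∧ η ≤ d₀ / 8 :=
    ⟨min (r₀ / 2000) (d₀ / 8), by positivity, min_le_left _ _, min_le_right _ _⟩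
  obtain ⟨R₀, hR₀, ε₀, hε₀, H⟩ := hLT n r₀ η hn hr₀ hr₁ hη0
  refine ⟨R₀, hR₀, ε₀, hε₀, ?_⟩
  intro k _ c b g ψ R ε hSU hF hR hε hd i l S y hil hil2 hS hStrip
  have hk0 : 0 < k := Nat.pos_of_ne_zero (NeZero.ne k)
  have hb0 : ∀ i, b i ≠ 0 := hSU.cyc.ne0
  have hψ0 : ∀ i, deriv (ψ i) 0 ≠ 0 := fun i => (hF.mx i).pn.der
  have hρ0 : rho n b ≠ 0 := by
    intro h0
    have := hSU.rho1
    rw [h0, norm_zero] at this
    linarith
  have hS' : S.re ≤ r₀ / 1000 := by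
    have : r₀ / 10 ^ 6 ≤ r₀ / 1000 := by
      apply div_le_div_of_nonneg_left hr₀.le (by norm_num) (by norm_num)
    linarith
  -- the index q
  obtain ⟨q, hq⟩ : ∃ q : ℕ, q = (l - i).val := ⟨_, rfl⟩
  have hqk : q < k := by rw [hq]; exact ZMod.val_lt _
  have hqc : (q : ZMod k) = l - i := by rw [hq]; exact ZMod.natCast_zmod_val _
  have hq1 : 1 ≤ q := by
    rcases Nat.eq_zero_or_pos q with h | h
    · exfalso
      rw [h, Nat.cast_zero] at hqc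
      exact hil (sub_eq_zero.1 hqc.symm).symm
    · exact h
  have hiq : i - (q : ZMod k) = l := by
    rw [hqc]
    have : i - (l - i) = (i + i) - l := by ring
    rw [this, hil2]
    ring
  have hlq : l - (q : ZMod k) = i := by
    rw [hqc]; ring
  have hqq : q + q = k := by
    have h0 : ((q + q : ℕ) : ZMod k) = 0 := by
      rw [Nat.cast_add, hqc]
      have : l - i + (l - i) = (l + l) - (i + i) := by ring
      rw [this, hil2, sub_self]
    rw [ZMod.natCast_eq_zero_iff] at h0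
    obtain ⟨a, ha⟩ := h0
    have ha1 : a = 1 := by
      have h1 : k * a < k * 2 := by omega
      have h2 : k * 0 < k * a := by omega
      have h3 := lt_of_mul_lt_mul_left h1 (Nat.zero_le k)
      have h4 := lt_of_mul_lt_mul_left h2 (Nat.zero_le k)
      omega
    rw [ha, ha1, mul_one]
  -- transport by k and by q
  obtain ⟨κ₁, κ₁', S₁, hκ₁, hκ₁', hS₁, -, -, hB⟩ :=
    H k c b g ψ R ε hSU hF hR hε i l k S y hil hk0 le_rfl hStrip hS'
  obtain ⟨κ₂, κ₂', S₂, hκ₂, hκ₂', hS₂, -, -, hC⟩ :=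
    H k c b g ψ R ε hSU hF hR hε i l q S y hil hq1 hqk.le hStrip hS'
  have hk00 : ((k : ℕ) : ZMod k) = 0 := ZMod.natCast_self k
  rw [hk00, sub_zero, sub_zero] at hB
  rw [hiq, hlq] at hC
  have K1 : Complex.exp κ₁ = (rho n b)⁻¹ := by
    rw [hκ₁, (hCOC n k b ψ hn hb0 hψ0 i).2.2.1]
  have K1' : Complex.exp κ₁' = (rho n b)⁻¹ := by
    rw [hκ₁', (hCOC n k b ψ hn hb0 hψ0 l).2.2.1]
  have K2 : Complex.exp (κ₂ + κ₂') = (rho n b)⁻¹ := by
    rw [Complex.exp_add, hκ₂, hκ₂', ← (hCOC n k b ψ hn hb0 hψ0 i).2.2.1]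
    have := (hCOC n k b ψ hn hb0 hψ0 i).2.2.2 q q
    rw [hqq, hiq] at this
    exact this.symm
  have pi1 := (hF.mx i).pn
  have pl1 := (hF.mx l).pn
  -- the third strip
  obtain ⟨z, hz⟩ : ∃ z : ℝ, z = S₂.im - (y + κ₂.im) := ⟨_, rfl⟩
  have hC' : Strip b g (ψ i) (ψ l) S₂ (z - r₀ / 200) (z + r₀ / 200) := by
    have := (hSYM k b g l i (ψ l) (ψ i) pl1 pi1 S₂ _ _ hC).1
    have e1 : S₂.im - (y + κ₂.im + r₀ / 200) = z - r₀ / 200 := by rw [hz]; ring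
    have e2 : S₂.im - (y + κ₂.im - r₀ / 200) = z + r₀ / 200 := by rw [hz]; ring
    rw [e1, e2] at this
    exact this
  have hA' : Strip b g (ψ i) (ψ l) S (y - r₀ / 200) (y + r₀ / 200) :=
    (hSYM k b g i l (ψ i) (ψ l) pi1 pl1 S _ _ hStrip).2.2.1 _ _ (by linarith) (by linarith)
  -- errors
  obtain ⟨eB, heB⟩ : ∃ eB : ℂ, eB = S₁ - (S + κ₁ + κ₁') := ⟨_, rfl⟩
  obtain ⟨eC, heC⟩ : ∃ eC : ℂ, eC = S₂ - (S + κ₂ + κ₂') := ⟨_, rfl⟩
  have hB1 : |eB.im| ≤ η := by rw [heB]; exact (Complex.abs_im_le_norm _).trans hS₁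
  have hC1 : |eC.im| ≤ η := by rw [heC]; exact (Complex.abs_im_le_norm _).trans hS₂
  have hB2 := abs_le.1 hB1
  have hC2 := abs_le.1 hC1
  -- separation
  have sepAC : ∀ m : ℤ, r₀ ≤ |z + m * (2 * Real.pi) - y| := by
    intro m
    by_contra hcon
    push Not at hcon
    have h1 := NG2_sep hSYM hUNQ b g ψ hF i l S S₂ y z r₀ (r₀ / 200) (by positivity) m hStrip hC' hcon
    have h2 : Complex.exp eC = rho n b := by
      have : eC = (S₂ - S) - (κ₂ + κ₂') := by rw [heC]; ring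
      rw [this, Complex.exp_sub, h1, K2, one_div, inv_inv]
    have h3 := NG2_dist _ _ h2
    linarith
  have sepBC : ∀ m : ℤ, r₀ / 200 ≤ |z + m * (2 * Real.pi) - (y + κ₁.im)| := by
    intro m
    by_contra hcon
    push Not at hcon
    have h1 := NG2_sep hSYM hUNQ b g ψ hF i l S₁ S₂ (y + κ₁.im) z (r₀ / 200) (r₀ / 200)
      (by positivity) m hB hC' hcon
    have h2 : Complex.exp (eB - eC) = rho n b := by
      have : eB - eC = (κ₂ + κ₂') - (S₂ - S₁) - κ₁ - κ₁' := by rw [heB, heC]; ring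
      rw [this, Complex.exp_sub, Complex.exp_sub, Complex.exp_sub, h1, K2, K1, K1']
      field_simp
    have h3 := NG2_dist _ _ h2
    have h4 : |(eB - eC).im| ≤ 2 * η := by
      rw [Complex.sub_im, abs_le]
      constructor <;> linarith
    linarith
  have gapAB : ∀ m : ℤ, d₀ ≤ |κ₁.im + m * (2 * Real.pi)| := by
    intro m
    have h2 : Complex.exp (-(κ₁ + m * (2 * Real.pi * I))) = rho n b := by
      rw [Complex.exp_neg, Complex.exp_add, Complex.exp_int_mul_two_pi_mul_I, K1, mul_one, inv_inv]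
    have h3 := NG2_dist _ _ h2
    have h4 : (-(κ₁ + m * (2 * Real.pi * I))).im = -(κ₁.im + m * (2 * Real.pi)) := by
      have : (m : ℂ) * (2 * Real.pi * I) = ((m * (2 * Real.pi) : ℝ) : ℂ) * I := by
        push_cast; ring
      rw [this]
      simp
    rw [h4, abs_neg] at h3
    exact hd.trans h3
  -- congruences
  obtain ⟨m', hm'⟩ := NG2_im κ₁' κ₁ (K1'.trans K1.symm)
  obtain ⟨m'', hm''⟩ := NG2_im (κ₂ + κ₂') κ₁ (K2.trans K1.symm)
  obtain ⟨m₁, hm1a, hm1b⟩ := NG2_red κ₁.im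
  obtain ⟨m₃, hm3a, hm3b⟩ := NG2_red (z - y)
  obtain ⟨t, ht⟩ : ∃ t : ℝ, t = κ₁.im - m₁ * (2 * Real.pi) := ⟨_, rfl⟩
  obtain ⟨x, hx⟩ : ∃ x : ℝ, x = z - y - m₃ * (2 * Real.pi) := ⟨_, rfl⟩
  rw [← ht] at hm1a hm1b
  rw [← hx] at hm3a hm3b
  have t1 : d₀ ≤ t := by
    have := gapAB (-m₁)
    have e1 : κ₁.im + ((-m₁ : ℤ) : ℝ) * (2 * Real.pi) = t := by rw [ht]; push_cast; ring
    rwa [e1, abs_of_nonneg hm1a] at this
  have t2 : d₀ ≤ 2 * Real.pi - t := by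
    have := gapAB (-m₁ - 1)
    have e1 : κ₁.im + ((-m₁ - 1 : ℤ) : ℝ) * (2 * Real.pi) = -(2 * Real.pi - t) := by
      rw [ht]; push_cast; ring
    rwa [e1, abs_neg, abs_of_nonneg (by linarith)] at this
  have x1 : r₀ ≤ x := by
    have := sepAC (-m₃)
    have e1 : z + ((-m₃ : ℤ) : ℝ) * (2 * Real.pi) - y = x := by rw [hx]; push_cast; ring
    rwa [e1, abs_of_nonneg hm3a] at this
  have x2 : r₀ ≤ 2 * Real.pi - x := by
    have := sepAC (-m₃ - 1)
    have e1 : z + ((-m₃ - 1 : ℤ) : ℝ) * (2 * Real.pi) - y = -(2 * Real.pi - x) := by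
      rw [hx]; push_cast; ring
    rwa [e1, abs_neg, abs_of_nonneg (by linarith)] at this
  have xt : r₀ / 200 ≤ |x - t| := by
    have := sepBC (m₁ - m₃)
    have e1 : z + ((m₁ - m₃ : ℤ) : ℝ) * (2 * Real.pi) - (y + κ₁.im) = x - t := by
      rw [hx, ht]; push_cast; ring
    rwa [e1] at this
  have SB : S₁.im = S.im + κ₁.im + κ₁'.im + eB.im := by
    rw [heB]; simp only [Complex.sub_im, Complex.add_im]; ring
  have SC : S₂.im = S.im + κ₂.im + κ₂'.im + eC.im := by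
    rw [heC]; simp only [Complex.sub_im, Complex.add_im]; ring
  rw [Complex.add_im] at hm''
  have r1 : y + κ₁.im = y + t + m₁ * (2 * Real.pi) := by rw [ht]; ring
  have r2 : S₁.im - (y + κ₁.im) = (S.im - y) + (t + eB.im) + ((m₁ + m' : ℤ) : ℝ) * (2 * Real.pi) := by
    rw [SB, hm', ht]; push_cast; ring
  have r3 : z = y + x + m₃ * (2 * Real.pi) := by rw [hx]; ring
  have r4 : S₂.im - z = (S.im - y) + (t - x + eC.im) + ((m₁ + m'' - m₃ : ℤ) : ℝ) * (2 * Real.pi) := by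
    push_cast
    rw [hx, ht]
    linarith
  rcases lt_or_ge x t with hlt | hge
  · have h1 : r₀ / 200 ≤ t - x := by
      rwa [abs_sub_comm, abs_of_pos (by linarith)] at xt
    exact NG2_circ hSYM hPLA b g ψ hF i l hil S S₂ S₁ y z (y + κ₁.im) (r₀ / 200) (by positivity)
      hA' hC' hB x (t - x + eC.im) t (t + eB.im) m₃ (m₁ + m'' - m₃) m₁ (m₁ + m') r3 r4 r1 r2
      (by linarith) hlt (by linarith) (by linarith) (by linarith) (by linarith)
  · have h1 : r₀ / 200 ≤ x - t := by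
      rwa [abs_of_nonneg (by linarith)] at xt
    have r4' : S₂.im - z = (S.im - y) + (t - x + eC.im + 2 * Real.pi)
        + ((m₁ + m'' - m₃ - 1 : ℤ) : ℝ) * (2 * Real.pi) := by
      rw [r4]; push_cast; ring
    exact NG2_circ hSYM hPLA b g ψ hF i l hil S S₁ S₂ y (y + κ₁.im) z (r₀ / 200) (by positivity)
      hA' hB hC' t (t + eB.im) x (t - x + eC.im + 2 * Real.pi) m₁ (m₁ + m') m₃
      (m₁ + m'' - m₃ - 1) r1 r2 r3 r4'
      (by linarith) (by linarith) (by linarith) (by linarith) (by linarith) (by linarith)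

end MQ
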